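import Pool.Agent.W289.SL.Crit
import Pool.Agent.Y419.LC.LCP

/-!
# Project SG of helper5, job SL, part 1: the relative units, additively
-/

set_option autoImplicit false
set_option linter.unusedSectionVars false

namespace Pool.Agent.Q166.SG

open NumberField Module TensorProduct Pool.Agent.W289.SL Pool.Agent.Y419.LC.LcpP

/-- a basis of a subgroup up to torsion -/
theorem exists_eps (M : Type) [AddCommGroup M] [Module.Finite ℤ M] (N : AddSubgroup M) :
    ∃ (r : ℕ) (ε : Fin r → M), (∀ i, ε i ∈ N) ∧ (∀ c : Fin r → ℤ, ∑ i, c i • ε i = 0 → c = 0) ∧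
      ∀ v ∈ N, ∃ (c : Fin r → ℤ) (t : M) (n : ℕ), n ≠ 0 ∧ n • t = 0 ∧
        v = ∑ i, c i • ε i + t := by
  classical
  let N' : Submodule ℤ M := AddSubgroup.toIntSubmodule N
  have hN' : ∀ v, v ∈ N' ↔ v ∈ N := fun v => Iff.rfl
  have hfin : Module.Finite ℤ N' := inferInstance
  let b := Module.finBasis ℤ (N' ⧸ Submodule.torsion ℤ N')
  choose e he using fun i => Submodule.mkQ_surjective (Submodule.torsion ℤ N') (b i)
  refine ⟨_, fun i => (e i : M), fun i => (hN' _).1 (e i).2, ?_, ?_⟩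
  · intro c hc
    have h1 : ∑ i, c i • e i = 0 := by
      apply Subtype.ext
      rw [Submodule.coe_sum]
      simpa using hc
    have h2 : ∑ i, c i • b i = 0 := by
      have h3 := congrArg (Submodule.mkQ (Submodule.torsion ℤ N')) h1
      rw [map_sum, map_zero] at h3
      rw [← h3]
      exact Finset.sum_congr rfl fun i _ => by rw [map_smul, he]
    exact funext (Fintype.linearIndependent_iff.1 b.linearIndependent c h2)
  · intro v hv
    let q : N' := ⟨v, (hN' v).2 hv⟩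
    have h1 : Submodule.mkQ (Submodule.torsion ℤ N')
        (q - ∑ i, b.repr (Submodule.mkQ (Submodule.torsion ℤ N') q) i • e i) = 0 := by
      rw [map_sub, map_sum, sub_eq_zero]
      conv_lhs => rw [← b.sum_repr (Submodule.mkQ (Submodule.torsion ℤ N') q)]
      exact Finset.sum_congr rfl fun i _ => by rw [map_smul, he]
    rw [Submodule.mkQ_apply, Submodule.Quotient.mk_eq_zero] at h1
    obtain ⟨a, ha⟩ := (Submodule.mem_torsion_iff _).1 h1
    refine ⟨fun i => b.repr (Submodule.mkQ (Submodule.torsion ℤ N') q) i,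
      v - ∑ i, b.repr (Submodule.mkQ (Submodule.torsion ℤ N') q) i • (e i : M),
      ((a : ℤ)).natAbs, ?_, ?_, by abel⟩
    · exact Int.natAbs_ne_zero.2 (nonZeroDivisors.coe_ne_zero a)
    · have h2 := congrArg (fun z : N' => (z : M)) ha
      have h3 : ((a : ℤ)) • (v - ∑ i, b.repr (Submodule.mkQ (Submodule.torsion ℤ N') q) i •
          (e i : M)) = 0 := by
        have h4 : (((a • (q - ∑ i, b.repr (Submodule.mkQ (Submodule.torsion ℤ N') q) i • e i) :
            N')) : M) = (a : ℤ) • (v - ∑ i, b.repr (Submodule.mkQ (Submodule.torsion ℤ N') q) i •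
              (e i : M)) := by
          rw [Submonoid.smul_def, Submodule.coe_smul, Submodule.coe_sub, Submodule.coe_sum]
          rfl
        rw [← h4]
        exact h2
      rcases Int.natAbs_eq (a : ℤ) with h5 | h5
      · rw [h5] at h3
        rwa [natCast_zsmul] at h3
      · rw [h5, neg_smul, neg_eq_zero, natCast_zsmul] at h3
        exact h3

section

variable {K E : Type} [Field K] [NumberField K] [Field E] [NumberField E] [Algebra K E]

/-- the action of an automorphism on the units, additively -/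
noncomputable def ah (τ : E ≃ₐ[K] E) : Additive (𝓞 E)ˣ →+ Additive (𝓞 E)ˣ :=
  unitHom (τ : E →+* E)

theorem ah_mul (σ τ : E ≃ₐ[K] E) (u : Additive (𝓞 E)ˣ) : ah (σ * τ) u = ah σ (ah τ u) := by
  unfold ah
  rw [unitHom_comp]
  rfl

theorem ah_one (u : Additive (𝓞 E)ˣ) : ah (1 : E ≃ₐ[K] E) u = u := by
  exact unitHom_id u

/-- the relative norm, additively -/
noncomputable def nu (p : ℕ) (τ : E ≃ₐ[K] E) : Additive (𝓞 E)ˣ →+ Additive (𝓞 E)ˣ :=
  ∑ i ∈ Finset.range p, ah (τ ^ i)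

theorem nu_apply (p : ℕ) (τ : E ≃ₐ[K] E) (u : Additive (𝓞 E)ˣ) :
    nu p τ u = ∑ i ∈ Finset.range p, ah (τ ^ i) u := by
  unfold nu
  rw [AddMonoidHom.finsetSum_apply]

theorem ah_nu {p : ℕ} {τ : E ≃ₐ[K] E} (hτ : τ ^ p = 1) (u : Additive (𝓞 E)ˣ) :
    ah τ (nu p τ u) = nu p τ u := by
  rw [nu_apply, map_sum]
  have h1 : ∀ i, ah τ (ah (τ ^ i) u) = ah (τ ^ (i + 1)) u := by
    intro i
    rw [← ah_mul, pow_succ']
  rw [Finset.sum_congr rfl fun i _ => h1 i]
  have h2 := Finset.sum_range_succ (fun i => ah (τ ^ i) u) p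
  have h3 := Finset.sum_range_succ' (fun i => ah (τ ^ i) u) p
  rw [h3, hτ, pow_zero] at h2
  exact add_right_cancel h2

theorem nu_nu {p : ℕ} {τ : E ≃ₐ[K] E} (hτ : τ ^ p = 1) (u : Additive (𝓞 E)ˣ) :
    nu p τ (nu p τ u) = p • nu p τ u := by
  have h1 : ∀ i : ℕ, ah (τ ^ i) (nu p τ u) = nu p τ u := by
    intro i
    induction i with
    | zero => rw [pow_zero, ah_one]
    | succ i ih => rw [pow_succ', ah_mul, ih, ah_nu hτ]
  conv_lhs => rw [nu_apply]
  rw [Finset.sum_congr rfl fun i _ => h1 i, Finset.sum_const, Finset.card_range]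

/-- the embedding of the units in `Eˣ` -/
noncomputable def em (E : Type) [Field E] [NumberField E] : (𝓞 E)ˣ →* Eˣ :=
  Units.map (algebraMap (𝓞 E) E).toMonoidHom

theorem em_val (u : (𝓞 E)ˣ) : ((em E u : Eˣ) : E) = ((u : 𝓞 E) : E) := rfl

theorem em_inj : Function.Injective (em E) := by
  intro u v h
  apply Units.ext
  apply RingOfIntegers.ext
  exact congrArg Units.val h

theorem em_ah (τ : E ≃ₐ[K] E) (u : Additive (𝓞 E)ˣ) :
    em E (Additive.toMul (ah τ u)) = τ • em E (Additive.toMul u) := by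
  apply Units.ext
  rfl

theorem em_nu (p : ℕ) (τ : E ≃ₐ[K] E) (u : Additive (𝓞 E)ˣ) :
    em E (Additive.toMul (nu p τ u)) =
      ∏ i ∈ Finset.range p, τ ^ i • em E (Additive.toMul u) := by
  rw [nu_apply, toMul_sum, map_prod]
  exact Finset.prod_congr rfl fun i _ => em_ah _ _

/-- the relative units congruent to `1` modulo `p ^ 4` -/
noncomputable def NN (p : ℕ) (τ : E ≃ₐ[K] E) : AddSubgroup (Additive (𝓞 E)ˣ) :=
  Subgroup.toAddSubgroup (U4 E p) ⊓ (nu p τ).ker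

theorem mem_NN {p : ℕ} {τ : E ≃ₐ[K] E} {u : Additive (𝓞 E)ˣ} :
    u ∈ NN p τ ↔ Additive.toMul u ∈ U4 E p ∧ nu p τ u = 0 := by
  unfold NN
  rw [AddSubgroup.mem_inf, AddMonoidHom.mem_ker]
  exact Iff.rfl

variable {p : ℕ} [hp : Fact p.Prime]

/-- `n (p - ν)` maps to the relative units -/
theorem mem_NN_of {τ : E ≃ₐ[K] E} (hτ : τ ^ p = 1) {n : ℕ} (hn : ∀ u : (𝓞 E)ˣ, u ^ n ∈ U4 E p)
    (u : Additive (𝓞 E)ˣ) : n • (p • u - nu p τ u) ∈ NN p τ := by
  rw [mem_NN]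
  constructor
  · rw [toMul_nsmul]
    exact hn _
  · rw [map_nsmul, map_sub, map_nsmul, nu_nu hτ, sub_self, smul_zero]

theorem nsmul_tmul (c : ℂ_[p]) (k : ℕ) (u : Additive (𝓞 E)ˣ) :
    (c ⊗ₜ[ℤ] (k • u) : UM p E) = (k : ℂ_[p]) • (c ⊗ₜ[ℤ] u) := by
  have h := tmul_zsmul (p := p) c (k : ℤ) u
  rw [natCast_zsmul] at h
  rw [h, TensorProduct.smul_tmul', smul_eq_mul, mul_comm, Int.cast_natCast]

/-- every element in the image of `n (p - ν)` is a combination of the `ε i` -/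
theorem exists_comb {τ : E ≃ₐ[K] E} (hτ : τ ^ p = 1) {n : ℕ} (hn : ∀ u : (𝓞 E)ˣ, u ^ n ∈ U4 E p)
    {r : ℕ} (ε : Fin r → Additive (𝓞 E)ˣ)
    (hε : ∀ v ∈ NN p τ, ∃ (c : Fin r → ℤ) (t : Additive (𝓞 E)ˣ) (n : ℕ), n ≠ 0 ∧ n • t = 0 ∧
        v = ∑ i, c i • ε i + t) (x : UM p E) :
    ∃ a : Fin r → ℂ_[p], (n : ℂ_[p]) • ((p : ℂ_[p]) • x -
      ∑ i ∈ Finset.range p, actLin p ((τ ^ i : E ≃ₐ[K] E) : E →+* E) x) =
      ∑ i, a i ⊗ₜ[ℤ] ε i := by
  induction x using TensorProduct.induction_on with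
  | zero => exact ⟨0, by simp⟩
  | add x y hx hy =>
    obtain ⟨a, ha⟩ := hx
    obtain ⟨b, hb⟩ := hy
    refine ⟨a + b, ?_⟩
    have h1 : ∑ i, (a + b) i ⊗ₜ[ℤ] ε i = ∑ i, a i ⊗ₜ[ℤ] ε i + ∑ i, b i ⊗ₜ[ℤ] ε i := by
      rw [← Finset.sum_add_distrib]
      exact Finset.sum_congr rfl fun i _ => by rw [Pi.add_apply, TensorProduct.add_tmul]
    rw [h1, ← ha, ← hb]
    simp only [map_add, smul_add, Finset.sum_add_distrib, smul_sub]
    abel
  | tmul c u =>
    obtain ⟨d, t, k, hk, hkt, hv⟩ := hε _ (mem_NN_of hτ hn u)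
    refine ⟨fun i => c * (d i : ℂ_[p]), ?_⟩
    have h1 : (n : ℂ_[p]) • ((p : ℂ_[p]) • (c ⊗ₜ[ℤ] u : UM p E) -
        ∑ i ∈ Finset.range p, actLin p ((τ ^ i : E ≃ₐ[K] E) : E →+* E) (c ⊗ₜ[ℤ] u)) =
        c ⊗ₜ[ℤ] (n • (p • u - nu p τ u)) := by
      rw [nsmul_tmul, TensorProduct.tmul_sub, nsmul_tmul, nu_apply, TensorProduct.tmul_sum]
      rfl
    rw [h1, hv, TensorProduct.tmul_add, tmul_torsion c t k hk hkt, add_zero,
      TensorProduct.tmul_sum]
    exact Finset.sum_congr rfl fun i _ => tmul_zsmul _ _ _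

end

end Pool.Agent.Q166.SG
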