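import Pool.Agent.Q5.SG.Stm
import Pool.Agent.Q166.SG.SLa

/-!
# Project SG of helper5, job SL: a good layer satisfies the Sigma-Leopoldt conjecture
-/

set_option autoImplicit false
set_option linter.unusedSectionVars false

namespace Pool.Agent.Q166.SG

open NumberField Module TensorProduct Pool.Agent.W289.SL Pool.Agent.Y419.LC.LcpP Filter Topology
open Pool.Agent.Q5.SG Pool.Agent.Y18.LC

section

variable {p : ℕ} [hp : Fact p.Prime] {K E : Type} [Field K] [NumberField K] [Field E]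
  [NumberField E] [Algebra K E]

/-- units congruent to `1` modulo `p ^ 4` with small logarithms are close to `1` -/
theorem emb_tendsto {L : ℂ_[p] → ℂ_[p]} (hL : IsIwasawaLog p L) (σ : E →+* ℂ_[p])
    (u : ℕ → (𝓞 E)ˣ) (hu4 : ∀ k, u k ∈ U4 E p)
    (hlog : Tendsto (fun k => L (σ ((u k : 𝓞 E) : E))) atTop (𝓝 0)) :
    Tendsto (fun k => σ ((u k : 𝓞 E) : E) - 1) atTop (𝓝 0) := by
  have h1 : ∀ k, ‖σ ((u k : 𝓞 E) : E) - 1‖ ≤ 2 * ‖L (σ ((u k : 𝓞 E) : E))‖ := by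
    intro k
    obtain ⟨v, hv⟩ := (mem_U4 (u k)).1 (hu4 k)
    have h5 : σ (((u k : 𝓞 E) - 1 : 𝓞 E) : E) = σ ((u k : 𝓞 E) : E) - 1 := by
      simp only [map_sub, map_one]
    have h2 : ‖σ (((u k : 𝓞 E) - 1 : 𝓞 E) : E)‖ ≤ 1 / 8 := by
      rw [hv]
      have h3 : σ ((((p : ℕ) : 𝓞 E) ^ 4 * v : 𝓞 E) : E) = ((p : ℕ) : ℂ_[p]) ^ 4 * σ (v : E) := by
        simp only [map_mul, map_pow, map_natCast]
      rw [h3, norm_mul, norm_pow, norm_p]
      have h4 := norm_emb_le σ v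
      have h5 : ((p : ℝ)⁻¹) ≤ 2⁻¹ := by
        apply inv_anti₀ (by norm_num)
        exact_mod_cast hp.out.two_le
      have h6 : ((p : ℝ)⁻¹) ^ 4 ≤ (2⁻¹) ^ 4 := pow_le_pow_left₀ (by positivity) h5 4
      calc ((p : ℝ)⁻¹) ^ 4 * ‖σ (v : E)‖ ≤ (2⁻¹) ^ 4 * 1 := by gcongr
        _ ≤ 1 / 8 := by norm_num
    rw [h5] at h2
    have h3 := dist_le hL h2
    rw [add_sub_cancel] at h3
    exact h3
  refine squeeze_zero_norm h1 ?_
  have h2 := (hlog.norm).const_mul 2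
  rw [norm_zero, mul_zero] at h2
  exact h2

/-- the logarithms of the approximations tend to zero -/
theorem log_tendsto {L : ℂ_[p] → ℂ_[p]} (hL : IsIwasawaLog p L) (σ : E →+* ℂ_[p]) {r : ℕ}
    (ε : Fin r → (𝓞 E)ˣ) (b : Fin r → PadicInt p) (m : Fin r → ℕ → ℤ)
    (hm : ∀ i, Tendsto (fun k => ((m i k : ℤ) : PadicInt p)) atTop (𝓝 (b i)))
    (hb : ∑ i, algebraMap ℚ_[p] ℂ_[p] (b i : ℚ_[p]) * L (σ ((ε i : 𝓞 E) : E)) = 0) :
    Tendsto (fun k => L (σ (((∏ i, ε i ^ m i k : (𝓞 E)ˣ) : 𝓞 E) : E))) atTop (𝓝 0) := by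
  set u : ℕ → (𝓞 E)ˣ := fun k => ∏ i, ε i ^ m i k with hu
  have h1 : ∀ k, L (σ ((u k : 𝓞 E) : E)) = ∑ i, algebraMap ℚ_[p] ℂ_[p]
      (((m i k : ℤ) : PadicInt p) : ℚ_[p]) * L (σ ((ε i : 𝓞 E) : E)) := by
    intro k
    have h2 : logHom hL σ (Additive.ofMul (u k)) = ∑ i, (m i k) • logHom hL σ
        (Additive.ofMul (ε i)) := by
      rw [hu, ofMul_prod, map_sum]
      refine Finset.sum_congr rfl fun i _ => ?_
      rw [ofMul_zpow, map_zsmul]
    have h3 : L (σ ((u k : 𝓞 E) : E)) = logHom hL σ (Additive.ofMul (u k)) := rfl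
    rw [h3, h2]
    refine Finset.sum_congr rfl fun i _ => ?_
    rw [zsmul_eq_mul]
    congr 1
    simp
  have h0 : ∀ k, L (σ (((∏ i, ε i ^ m i k : (𝓞 E)ˣ) : 𝓞 E) : E)) = ∑ i, algebraMap ℚ_[p] ℂ_[p]
      (((m i k : ℤ) : PadicInt p) : ℚ_[p]) * L (σ ((ε i : 𝓞 E) : E)) := h1
  simp only [h0]
  have hj : Continuous (fun x : PadicInt p => algebraMap ℚ_[p] ℂ_[p] (x : ℚ_[p])) :=
    (continuous_algebraMap ℚ_[p] ℂ_[p]).comp continuous_subtype_val
  rw [← hb]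
  refine tendsto_finsetSum _ fun i _ => ?_
  exact ((hj.tendsto (b i)).comp (hm i)).mul_const _

theorem torsion_kill (t : Additive (𝓞 E)ˣ) (n : ℕ) (hn : n ≠ 0) (ht : n • t = 0) :
    Units.torsionOrder E • t = 0 := by
  have h1 : (Additive.toMul t : (𝓞 E)ˣ) ∈ Units.torsion E := by
    rw [Units.torsion, CommGroup.mem_torsion, isOfFinOrder_iff_pow_eq_one]
    exact ⟨n, Nat.pos_of_ne_zero hn, ht⟩
  rw [← Units.rootsOfUnity_eq_torsion] at h1
  exact (mem_rootsOfUnity _ _).1 h1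

theorem sl : J_SL := by
  classical
  intro hDE p hp hp2 K E _ _ _ _ _ _ S hS τ hτ hTop χ hχ L hL x hx hlogx
  have hp0 : p ≠ 0 := hp.out.ne_zero
  have hpC : (p : ℂ_[p]) ≠ 0 := by exact_mod_cast hp0
  have hτp : τ ^ p = 1 := by rw [← hτ]; exact pow_orderOf_eq_one τ
  by_contra hx0
  obtain ⟨n, hn, hnU⟩ := exists_pow_U4 E p
  have hnC : (n : ℂ_[p]) ≠ 0 := by exact_mod_cast hn
  obtain ⟨r, ε, hεN, hεind, hεgen⟩ := exists_eps (Additive (𝓞 E)ˣ) (NN p τ)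
  obtain ⟨a, ha⟩ := exists_comb hτp hnU ε hεgen x
  -- the norm kills `x`
  have hζ1 : ((χ τ : ℂ_[p]ˣ) : ℂ_[p]) ≠ 1 := by
    intro h
    have h1 : χ τ = 1 := Units.ext h
    rw [← map_one χ] at h1
    have h2 := hχ h1
    rw [h2, orderOf_one] at hτ
    exact hp.out.one_lt.ne hτ
  have hζp : ((χ τ : ℂ_[p]ˣ) : ℂ_[p]) ^ p = 1 := by
    rw [← Units.val_pow_eq_pow_val, ← map_pow, hτp, map_one, Units.val_one]
  have hsum : ∑ i ∈ Finset.range p, ((χ τ : ℂ_[p]ˣ) : ℂ_[p]) ^ i = 0 := by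
    have h1 := mul_geom_sum ((χ τ : ℂ_[p]ˣ) : ℂ_[p]) p
    rw [hζp, sub_self] at h1
    exact (mul_eq_zero.1 h1).resolve_left (sub_ne_zero.2 hζ1)
  have hνx : ∑ i ∈ Finset.range p, actLin p ((τ ^ i : E ≃ₐ[K] E) : E →+* E) x = 0 := by
    have h1 : ∀ i, actLin p ((τ ^ i : E ≃ₐ[K] E) : E →+* E) x =
        (((χ τ : ℂ_[p]ˣ) : ℂ_[p]) ^ i) • x := by
      intro i
      rw [hx (τ ^ i), map_pow, Units.val_pow_eq_pow_val]
    rw [Finset.sum_congr rfl fun i _ => h1 i, ← Finset.sum_smul, hsum, zero_smul]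
  rw [hνx, sub_zero] at ha
  set a' : Fin r → ℂ_[p] := fun i => (n : ℂ_[p])⁻¹ * (p : ℂ_[p])⁻¹ * a i with ha'
  have hxa : x = ∑ i, a' i ⊗ₜ[ℤ] ε i := by
    have h1 : ∑ i, a' i ⊗ₜ[ℤ] ε i = ((n : ℂ_[p])⁻¹ * (p : ℂ_[p])⁻¹) • ∑ i, a i ⊗ₜ[ℤ] ε i := by
      rw [Finset.smul_sum]
      exact Finset.sum_congr rfl fun i _ => by
        rw [TensorProduct.smul_tmul', smul_eq_mul]
    rw [h1, ← ha, smul_smul, smul_smul]
    have h2 : (n : ℂ_[p])⁻¹ * (p : ℂ_[p])⁻¹ * (n : ℂ_[p]) * (p : ℂ_[p]) = 1 := by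
      field_simp
    rw [h2, one_smul]
  have ha0 : a' ≠ 0 := by
    intro h
    apply hx0
    rw [hxa, h]
    simp
  -- the embeddings above `S`
  set SE : Set (E →+* ℂ_[p]) := {σ | σ.comp (algebraMap K E) ∈ S} with hSE
  have hSEc : PlaceClosed SE := by
    intro σ hσ τ' hτ'
    exact hS _ hσ _ (fun y => hτ' (algebraMap K E y))
  have hεU : ∀ i, (Additive.toMul (ε i) : (𝓞 E)ˣ) ∈ U4 E p := fun i => (mem_NN.1 (hεN i)).1
  obtain ⟨b, ⟨i1, hi1⟩, hb⟩ := hDE p E SE hSEc L hL r (fun i => Additive.toMul (ε i))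
    (fun i => (mem_U4 _).1 (hεU i)) a' ha0 (fun σ hσ => by
      have h1 := hlogx σ hσ
      rw [hxa, map_sum] at h1
      exact h1)
  choose m hm using fun i => exists_seq (b i)
  set u : ℕ → (𝓞 E)ˣ := fun k => ∏ i, (Additive.toMul (ε i) : (𝓞 E)ˣ) ^ m i k with hu
  have hu4 : ∀ k, u k ∈ U4 E p := fun k =>
    Subgroup.prod_mem _ fun i _ => Subgroup.zpow_mem _ (hεU i) _
  have huadd : ∀ k, Additive.ofMul (u k) = ∑ i, m i k • ε i := by
    intro k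
    rw [hu, ofMul_prod]
    exact Finset.sum_congr rfl fun i _ => by rw [ofMul_zpow, ofMul_toMul]
  have huN : ∀ k, nu p τ (Additive.ofMul (u k)) = 0 := by
    intro k
    rw [huadd, map_sum]
    exact Finset.sum_eq_zero fun i _ => by
      rw [map_zsmul, (mem_NN.1 (hεN i)).2, smul_zero]
  -- the exponent
  set T : ℕ := Units.torsionOrder E with hT
  have hT0 : T ≠ 0 := Units.torsionOrder_ne_zero E
  have hnT : 0 < n * T := Nat.pos_of_ne_zero (mul_ne_zero hn hT0)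
  obtain ⟨M, hM⟩ := hTop (n * T)
  -- closeness to `1`
  have hclose : ∀ᶠ k in atTop, ∀ σ : E →+* ℂ_[p], σ ∈ SE →
      ‖σ ((u k : 𝓞 E) : E) - 1‖ ≤ ((p : ℝ)⁻¹) ^ M := by
    rw [Filter.eventually_all]
    intro σ
    by_cases hσ : σ ∈ SE
    · have h1 := emb_tendsto hL σ u hu4 (log_tendsto hL σ (fun i => Additive.toMul (ε i)) b m hm
        (hb σ hσ))
      have h2 := h1.norm
      rw [norm_zero] at h2
      have hpos : (0 : ℝ) < ((p : ℝ)⁻¹) ^ M := by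
        have := hp.out.pos
        positivity
      exact (h2.eventually (gt_mem_nhds hpos)).mono fun k hk _ => le_of_lt hk
    · exact Filter.Eventually.of_forall fun k h => absurd h hσ
  have hunit : ∀ᶠ k in atTop, ¬ (p : ℤ) ∣ m i1 k := by
    have h1 := (hm i1)
    rw [hi1] at h1
    have h2 : Tendsto (fun k => ‖((m i1 k : ℤ) : PadicInt p) - 1‖) atTop (𝓝 0) := by
      have h3 := (h1.sub_const 1).norm
      rwa [sub_self, norm_zero] at h3
    refine (h2.eventually (gt_mem_nhds one_pos)).mono fun k hk hdvd => ?_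
    have h4 : ((m i1 k : ℤ) : PadicInt p) - 1 = ((m i1 k - 1 : ℤ) : PadicInt p) := by push_cast; ring
    rw [h4, PadicInt.norm_int_lt_one_iff_dvd] at hk
    have h5 : (p : ℤ) ∣ 1 := by
      have := dvd_sub hdvd hk
      rwa [sub_sub_cancel] at this
    have h6 := Int.eq_one_of_dvd_one (by positivity) h5
    exact hp.out.one_lt.ne' (by exact_mod_cast h6)
  obtain ⟨k, hk1, hk2⟩ := (hclose.and hunit).exists
  have hCU : em E (u k) ∈ CU S E M := by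
    rw [mem_CU]
    refine ⟨mem_EU.2 ⟨u k, rfl⟩, fun σ hσ => ?_⟩
    exact hk1 σ hσ
  have hnorm : ∏ i ∈ Finset.range p, τ ^ i • em E (u k) = 1 := by
    have h1 := em_nu p τ (Additive.ofMul (u k))
    rw [huN] at h1
    rw [← toMul_ofMul (u k), ← h1]
    simp
  obtain ⟨w, hwE, hw⟩ := hM (em E (u k)) hCU hnorm
  obtain ⟨w0, hw0⟩ := mem_EU.1 hwE
  have hww : em E w0 = w := Units.ext hw0
  have hwu : w0 ^ p ^ (n * T) = u k := by
    apply em_inj
    rw [map_pow, hww, hw]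
  set W : Additive (𝓞 E)ˣ := Additive.ofMul w0 with hW
  have hWu : (p ^ (n * T)) • W = ∑ i, m i k • ε i := by
    rw [← huadd, ← hwu, ofMul_pow]
  have hνW : T • nu p τ W = 0 := by
    refine torsion_kill _ (p ^ (n * T)) (pow_ne_zero _ hp0) ?_
    rw [← map_nsmul, hWu, ← huadd, huN]
  have hvN : n • (T • W) ∈ NN p τ := by
    rw [mem_NN]
    refine ⟨?_, ?_⟩
    · rw [toMul_nsmul]
      exact hnU _
    · rw [map_nsmul, map_nsmul, hνW, smul_zero]
  obtain ⟨d, t, j, hj, hjt, hd⟩ := hεgen _ hvN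
  have htT : T • t = 0 := torsion_kill t j hj hjt
  have h1 : T • (n • (T • W)) = ∑ i, ((T : ℤ) * d i) • ε i := by
    rw [hd, nsmul_add, htT, add_zero, ← Finset.sum_nsmul]
    exact Finset.sum_congr rfl fun i _ => by rw [mul_smul, natCast_zsmul]
  have h2 : ∑ i, ((p : ℤ) ^ (n * T) * ((T : ℤ) * d i) - (T : ℤ) * (n * T) * m i k) • ε i = 0 := by
    simp only [sub_smul, Finset.sum_sub_distrib]
    rw [sub_eq_zero]
    have e1 : ∑ i, ((p : ℤ) ^ (n * T) * ((T : ℤ) * d i)) • ε i =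
        (p ^ (n * T)) • (T • (n • (T • W))) := by
      rw [h1, ← Finset.sum_nsmul]
      refine Finset.sum_congr rfl fun i _ => ?_
      rw [mul_smul, ← Nat.cast_pow, natCast_zsmul]
    have e2 : ∑ i, ((T : ℤ) * (n * T) * m i k) • ε i = (T * (n * T)) • ((p ^ (n * T)) • W) := by
      rw [hWu, ← Finset.sum_nsmul]
      refine Finset.sum_congr rfl fun i _ => ?_
      rw [mul_smul]
      have e3 : ((T : ℤ) * (n * T)) = ((T * (n * T) : ℕ) : ℤ) := by push_cast; ring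
      rw [e3, natCast_zsmul]
    rw [e1, e2, smul_smul, smul_smul, smul_smul, smul_smul]
    congr 1
    ring
  have h3 := congrFun (hεind _ h2) i1
  simp only [Pi.zero_apply] at h3
  have h4 : (T : ℤ) * ((p : ℤ) ^ (n * T) * d i1 - (n * T : ℕ) * m i1 k) = 0 := by
    rw [← h3]; push_cast; ring
  have hTz : (T : ℤ) ≠ 0 := by exact_mod_cast hT0
  have h5 := (mul_eq_zero.1 h4).resolve_left hTz
  have h6 : (p : ℤ) ^ (n * T) ∣ ((n * T : ℕ) : ℤ) := by
    have h7 : (p : ℤ) ^ (n * T) ∣ ((n * T : ℕ) : ℤ) * m i1 k :=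
      ⟨d i1, (sub_eq_zero.1 h5).symm⟩
    have h8 : IsCoprime ((p : ℤ) ^ (n * T)) (m i1 k) := by
      apply IsCoprime.pow_left
      exact (Prime.coprime_iff_not_dvd (Nat.prime_iff_prime_int.1 hp.out)).2 hk2
    exact h8.dvd_of_dvd_mul_right h7
  have h9 : p ^ (n * T) ∣ n * T := by exact_mod_cast h6
  have h10 := Nat.le_of_dvd hnT h9
  have h11 : n * T < p ^ (n * T) := Nat.lt_pow_self hp.out.one_lt
  omega

end

end Pool.Agent.Q166.SG
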